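import Pool.Agent.H27.G.R_seed8.H932R4.MO.Stmts

set_option autoImplicit false

open Finset

namespace Pool.Agent.H823R3.MO

open Pool.Agent.H932R4.MO

/-- the weight of an integer -/
noncomputable def g (n : ℕ) : ℝ := 1 / (n * (Real.log n) ^ 2)

theorem g_nonneg (n : ℕ) : 0 ≤ g n := by unfold g; positivity

theorem g_tele (n : ℕ) (hn : 3 ≤ n) :
    g n ≤ 1 / Real.log ((n : ℝ) - 1) - 1 / Real.log n := by
  have hn' : (3 : ℝ) ≤ n := by exact_mod_cast hn
  have h1 : 0 < Real.log ((n : ℝ) - 1) := Real.log_pos (by linarith)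
  have h2 : 0 < Real.log (n : ℝ) := Real.log_pos (by linarith)
  have h3 : Real.log ((n : ℝ) - 1) ≤ Real.log n := Real.log_le_log (by linarith) (by linarith)
  have h4 : 1 / (n : ℝ) ≤ Real.log n - Real.log ((n : ℝ) - 1) := by
    have h5 := Real.log_le_sub_one_of_pos (x := ((n : ℝ) - 1) / n) (by
      apply div_pos <;> linarith)
    rw [Real.log_div (by linarith) (by linarith)] at h5
    have h6 : ((n : ℝ) - 1) / n - 1 = -(1 / n) := by
      field_simp
      ring
    rw [h6] at h5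
    linarith
  unfold g
  rw [div_sub_div _ _ h1.ne' h2.ne', one_mul, mul_one]
  rw [← div_div]
  apply div_le_div₀ (by linarith) h4 (by positivity)
  rw [pow_two]
  exact mul_le_mul_of_nonneg_right h3 h2.le

theorem g_sum (N k : ℕ) (hN : 3 ≤ N) :
    ∑ n ∈ Ico N (N + k), g n ≤ 1 / Real.log ((N : ℝ) - 1) - 1 / Real.log ((N : ℝ) + k - 1) := by
  induction k with
  | zero => simp
  | succ k ih =>
    rw [← add_assoc, Finset.sum_Ico_succ_top (by omega)]
    have h1 := g_tele (N + k) (by omega)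
    push_cast at h1 ⊢
    have h2 : (N : ℝ) + (k + 1) - 1 = N + k := by ring
    rw [h2]
    linarith

theorem g_sum' (N M : ℕ) (hN : 3 ≤ N) :
    ∑ n ∈ Icc N M, g n ≤ 1 / Real.log ((N : ℝ) - 1) := by
  have h1 := g_sum N (M + 1) hN
  have h2 : ∑ n ∈ Icc N M, g n ≤ ∑ n ∈ Ico N (N + (M + 1)), g n := by
    apply Finset.sum_le_sum_of_subset_of_nonneg
    · intro n hn
      rw [mem_Icc] at hn
      rw [mem_Ico]
      omega
    · intro n _ _
      exact g_nonneg n
  have hN' : (3 : ℝ) ≤ N := by exact_mod_cast hN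
  have h3 : 0 < Real.log ((N : ℝ) + (M + 1 : ℕ) - 1) := by
    apply Real.log_pos
    push_cast
    have : (0 : ℝ) ≤ M := Nat.cast_nonneg M
    linarith
  have h4 := one_div_pos.mpr h3
  linarith

open Classical in
theorem bw_div (N₀ m : ℕ) (hm : Squarefree m ∧ ∀ p ∈ m.primeFactors, N₀ ≤ p) :
    bw N₀ m / m = ∏ p ∈ m.primeFactors, g p := by
  unfold bw
  rw [if_pos hm]
  have h1 : (m : ℝ) = ∏ p ∈ m.primeFactors, (p : ℝ) := by
    conv_lhs => rw [← Nat.prod_primeFactors_of_squarefree hm.1]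
    push_cast
    rfl
  conv_lhs => rw [h1]
  rw [← Finset.prod_div_distrib]
  refine Finset.prod_congr rfl fun p _ => ?_
  unfold g
  rw [div_div, mul_comm]

open Classical in
theorem sum_le (N₀ M : ℕ) (hN : 3 ≤ N₀) :
    ∑ m ∈ Icc 2 M, bw N₀ m / m ≤ Real.exp (1 / Real.log ((N₀ : ℝ) - 1)) - 1 := by
  set S := (Icc 2 M).filter (fun m => Squarefree m ∧ ∀ p ∈ m.primeFactors, N₀ ≤ p) with hS
  have h1 : ∑ m ∈ Icc 2 M, bw N₀ m / m = ∑ m ∈ S, ∏ p ∈ m.primeFactors, g p := by
    rw [hS, Finset.sum_filter]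
    refine Finset.sum_congr rfl fun m _ => ?_
    split_ifs with h
    · exact bw_div N₀ m h
    · unfold bw
      rw [if_neg h, zero_div]
  have hinj : Set.InjOn Nat.primeFactors (S : Set ℕ) := by
    intro a ha b hb hab
    have ha' := (mem_filter.mp (mem_coe.mp ha)).2.1
    have hb' := (mem_filter.mp (mem_coe.mp hb)).2.1
    rw [← Nat.prod_primeFactors_of_squarefree ha', ← Nat.prod_primeFactors_of_squarefree hb', hab]
  have h2 : ∑ m ∈ S, ∏ p ∈ m.primeFactors, g p =
      ∑ s ∈ S.image Nat.primeFactors, ∏ p ∈ s, g p := by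
    rw [Finset.sum_image hinj]
  have h3 : ∑ s ∈ S.image Nat.primeFactors, ∏ p ∈ s, g p ≤
      ∑ s ∈ (Icc N₀ M).powerset.erase ∅, ∏ p ∈ s, g p := by
    apply Finset.sum_le_sum_of_subset_of_nonneg
    · intro s hs
      rw [mem_image] at hs
      obtain ⟨m, hm, rfl⟩ := hs
      rw [hS, mem_filter, mem_Icc] at hm
      rw [mem_erase, mem_powerset]
      refine ⟨?_, fun p hp => ?_⟩
      · intro h
        rw [Nat.primeFactors_eq_empty] at h
        omega
      · rw [mem_Icc]
        exact ⟨hm.2.2 p hp, (Nat.le_of_mem_primeFactors hp).trans hm.1.2⟩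
    · intro s _ _
      exact Finset.prod_nonneg fun p _ => g_nonneg p
  have h4 : ∑ s ∈ (Icc N₀ M).powerset.erase ∅, ∏ p ∈ s, g p =
      ∏ n ∈ Icc N₀ M, (1 + g n) - 1 := by
    rw [Finset.prod_one_add, ← Finset.sum_erase_add _ _ (Finset.empty_mem_powerset (Icc N₀ M))]
    simp
  have h5 : ∏ n ∈ Icc N₀ M, (1 + g n) ≤ Real.exp (∑ n ∈ Icc N₀ M, g n) := by
    rw [Real.exp_sum]
    apply Finset.prod_le_prod
    · intro n _
      have := g_nonneg n
      linarith
    · intro n _
      have := Real.add_one_le_exp (g n)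
      linarith
  have h6 := Real.exp_le_exp.mpr (g_sum' N₀ M hN)
  rw [h1, h2]
  linarith

/-- T3: the tail of the Dirichlet series of the weight is small -/
theorem t3 : T3 := by
  intro τ hτ
  have hl : 0 < Real.log (1 + τ) := Real.log_pos (by linarith)
  obtain ⟨N, hN⟩ := exists_nat_gt (Real.exp (1 / Real.log (1 + τ)) + 1)
  refine ⟨N + 3, by omega, fun N₀ hN₀ M => ?_⟩
  refine (sum_le N₀ M (by omega)).trans ?_
  have hN₀' : (N : ℝ) + 3 ≤ N₀ := by exact_mod_cast hN₀
  have h1 : 1 / Real.log (1 + τ) ≤ Real.log ((N₀ : ℝ) - 1) := by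
    rw [Real.le_log_iff_exp_le (by
      have := Real.exp_pos (1 / Real.log (1 + τ))
      linarith)]
    linarith
  have h2 : 1 / Real.log ((N₀ : ℝ) - 1) ≤ Real.log (1 + τ) := by
    have := one_div_le_one_div_of_le (one_div_pos.mpr hl) h1
    rwa [one_div_one_div] at this
  have h3 := Real.exp_le_exp.mpr h2
  rw [Real.exp_log (by linarith)] at h3
  linarith

end Pool.Agent.H823R3.MO
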